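import Pool.Agent.Q19.StabC

set_option autoImplicit false
set_option linter.unusedVariables false

open Classical

namespace Pool.Agent.Results.MP_476b05_co.LargeTight

/-- `G` is `(k, ℓ)`-stable: deleting any `k` vertices lowers the independence number by at most
`ℓ`. The graph `G - S` is the subgraph induced on the complement of `S`. -/
def Stable (k l : ℕ) {V : Type*} (G : SimpleGraph V) : Prop :=
  ∀ S : Finset V, S.card = k → (G.indepNum : ℤ) - l ≤ (G.induce {v | v ∉ S}).indepNum

/-- `G` is tight `(k, 0)`-stable: it is `(k, 0)`-stable and its independence number is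
`⌊(n - k + 1) / 2⌋` (a floor of rational numbers), where `n` is the number of vertices. -/
def Tight (k : ℕ) {V : Type*} [Fintype V] (G : SimpleGraph V) : Prop :=
  Stable k 0 G ∧ (G.indepNum : ℤ) = ⌊(((Fintype.card V : ℚ) - k + 1) / 2)⌋

open Pool.Agent.Q19.Stab

lemma ind_iff {V : Type*} {G : SimpleGraph V} {S : Finset V} : Ind G S ↔ G.IsIndepSet S := by
  constructor
  · intro h x hx y hy _ hxy
    exact h x hx y hy hxy
  · intro h x hx y hy hxy
    exact h hx hy hxy.ne hxy

/-- a critical spanning subgraph -/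
lemma exists_ctx {V : Type*} [Fintype V] {G : SimpleGraph V} {α : ℕ}
    (hle : ∀ S : Finset V, Ind G S → S.card ≤ α)
    (hst : ∀ S : Finset V, S.card ≤ 3 → ∃ I, Ind G I ∧ I.card = α ∧ Disjoint I S) :
    ∃ H : SimpleGraph V, Ctx H α := by
  have hfin : {H : SimpleGraph V | H ≤ G ∧ ∀ S : Finset V, Ind H S → S.card ≤ α}.Finite :=
    Set.toFinite _
  have hG0 : G ∈ {H : SimpleGraph V | H ≤ G ∧ ∀ S : Finset V, Ind H S → S.card ≤ α} :=
    ⟨le_rfl, hle⟩
  obtain ⟨H, hHG, hH, hmin⟩ := hfin.exists_le_minimal hG0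
  refine ⟨H, hH.2, ?_, ?_⟩
  · intro S hS
    obtain ⟨I, h1, h2, h3⟩ := hst S hS
    exact ⟨I, fun x hx y hy hxy => h1 x hx y hy (hHG hxy), h2, h3⟩
  · intro a b hab
    have hlt : H.deleteEdges {s(a, b)} < H := by
      refine lt_of_le_of_ne (SimpleGraph.deleteEdges_le _) ?_
      intro h1
      have h2 : (H.deleteEdges {s(a, b)}).Adj a b := h1.symm ▸ hab
      rw [SimpleGraph.deleteEdges_adj] at h2
      exact h2.2 rfl
    have h1 : ¬ (H.deleteEdges {s(a, b)} ≤ G ∧
        ∀ S : Finset V, Ind (H.deleteEdges {s(a, b)}) S → S.card ≤ α) := by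
      intro h2
      exact absurd (hmin h2 hlt.le) (not_le_of_gt hlt)
    rw [not_and] at h1
    have h2 := h1 (hlt.le.trans hHG)
    push Not at h2
    obtain ⟨S, hS, hS'⟩ := h2
    obtain ⟨S', hSS, hS'c⟩ := Finset.exists_subset_card_eq (s := S) (n := α + 1) hS'
    have key : ∀ x ∈ S', ∀ y ∈ S', H.Adj x y → (x = a ∧ y = b) ∨ (x = b ∧ y = a) := by
      intro x hx y hy hxy
      by_contra h3
      apply hS x (hSS hx) y (hSS hy)
      rw [SimpleGraph.deleteEdges_adj]
      refine ⟨hxy, fun h4 => h3 ?_⟩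
      rw [Set.mem_singleton_iff, Sym2.eq_iff] at h4
      exact h4
    have ha : a ∈ S' := by
      by_contra h3
      have h4 : Ind H S' := by
        intro x hx y hy hxy
        rcases key x hx y hy hxy with ⟨e, _⟩ | ⟨_, e⟩
        · exact h3 (e ▸ hx)
        · exact h3 (e ▸ hy)
      have := hH.2 _ h4
      omega
    have hb : b ∈ S' := by
      by_contra h3
      have h4 : Ind H S' := by
        intro x hx y hy hxy
        rcases key x hx y hy hxy with ⟨_, e⟩ | ⟨e, _⟩
        · exact h3 (e ▸ hy)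
        · exact h3 (e ▸ hx)
      have := hH.2 _ h4
      omega
    exact ⟨S', ha, hb, hS'c, key⟩

section

variable {V : Type*} [Fintype V] {G : SimpleGraph V} {α k : ℕ}

/-- the independence number is bounded by an absolute constant -/
lemma alpha_le (hk : 3 ≤ k) (hle : ∀ S : Finset V, Ind G S → S.card ≤ α)
    (hst : ∀ S : Finset V, S.card ≤ k → ∃ I, Ind G I ∧ I.card = α ∧ Disjoint I S)
    (hn1 : 2 * α + k ≤ Fintype.card V + 1) (hn2 : Fintype.card V ≤ 2 * α + k) :
    2 * α ≤ bd 3 := by
  obtain ⟨S₀, -, hS₀⟩ := Finset.exists_subset_card_eq (s := (Finset.univ : Finset V)) (n := k - 3)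
    (by rw [Finset.card_univ]; omega)
  have hemb : Function.Injective (fun v : {v : V // v ∉ S₀} => v.1) := Subtype.val_injective
  have hcard : Fintype.card {v : V // v ∉ S₀} = Fintype.card V - (k - 3) := by
    rw [Fintype.card_subtype_compl, Fintype.card_coe, hS₀]
  obtain ⟨H, hH⟩ := exists_ctx (V := {v : V // v ∉ S₀}) (G := G.comap Subtype.val) (α := α)
    (by
      intro S hS
      have h1 : Ind G (S.map (Function.Embedding.subtype _)) := by
        intro x hx y hy hxy
        obtain ⟨x', hx', rfl⟩ := Finset.mem_map.1 hx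
        obtain ⟨y', hy', rfl⟩ := Finset.mem_map.1 hy
        exact hS x' hx' y' hy' hxy
      have h2 := hle _ h1
      rwa [Finset.card_map] at h2)
    (by
      intro S hS
      obtain ⟨I, h1, h2, h3⟩ := hst (S₀ ∪ S.map (Function.Embedding.subtype _)) (by
        refine (Finset.card_union_le _ _).trans ?_
        rw [Finset.card_map]
        omega)
      rw [Finset.disjoint_union_right] at h3
      refine ⟨I.subtype (fun v => v ∉ S₀), ?_, ?_, ?_⟩
      · intro x hx y hy hxy
        exact h1 x.1 (Finset.mem_subtype.1 hx) y.1 (Finset.mem_subtype.1 hy) hxy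
      · rw [Finset.card_subtype, Finset.filter_true_of_mem, h2]
        intro x hx
        exact Finset.disjoint_left.1 h3.1 hx
      · rw [Finset.disjoint_left]
        intro x hx hxS
        exact Finset.disjoint_left.1 h3.2 (Finset.mem_subtype.1 hx)
          (Finset.mem_map.2 ⟨x, hxS, rfl⟩))
  have h1 := card_bound hH
  rw [hcard] at h1
  have h2 : bd (Fintype.card V - (k - 3) - 2 * α) ≤ bd 3 := bd_mono (by omega)
  omega

/-- every vertex has at most `2 α` non-neighbours, itself included -/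
lemma nonadj_le (hle : ∀ S : Finset V, Ind G S → S.card ≤ α)
    (hst : ∀ S : Finset V, S.card ≤ k → ∃ I, Ind G I ∧ I.card = α ∧ Disjoint I S)
    (hn2 : Fintype.card V ≤ 2 * α + k) (v : V) :
    (Finset.univ.filter (fun w => ¬ G.Adj v w)).card ≤ 2 * α := by
  have h0 : k ≤ (Finset.univ.filter (fun w => G.Adj v w)).card := by
    by_contra h1
    push Not at h1
    obtain ⟨I, h2, h3, h4⟩ := hst (insert v (Finset.univ.filter (fun w => G.Adj v w)))
      ((Finset.card_insert_le _ _).trans (by omega))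
    rw [Finset.disjoint_insert_right] at h4
    have h5 : ∀ w ∈ I, ¬ G.Adj v w := by
      intro w hw hvw
      exact Finset.disjoint_left.1 h4.2 hw (Finset.mem_filter.2 ⟨Finset.mem_univ _, hvw⟩)
    have h6 : Ind G (insert v I) := by
      intro x hx y hy hxy
      rcases Finset.mem_insert.1 hx with e | hx'
      · rcases Finset.mem_insert.1 hy with e' | hy'
        · exact hxy.ne (e.trans e'.symm)
        · exact h5 _ hy' (e ▸ hxy)
      · rcases Finset.mem_insert.1 hy with e' | hy'
        · exact h5 _ hx' (e' ▸ hxy.symm)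
        · exact h2 _ hx' _ hy' hxy
    have h7 := hle _ h6
    rw [Finset.card_insert_of_notMem h4.1] at h7
    omega
  have h1 := Finset.card_filter_add_card_filter_not (s := (Finset.univ : Finset V))
    (fun w => G.Adj v w)
  rw [Finset.card_univ] at h1
  omega

/-- a large clique -/
lemma exists_clique (hd : ∀ v : V, (Finset.univ.filter (fun w => ¬ G.Adj v w)).card ≤ 2 * α)
    (j : ℕ) (hj : j * (2 * α) < Fintype.card V) :
    ∃ Q : Finset V, Q.card = j + 1 ∧ ∀ x ∈ Q, ∀ y ∈ Q, x ≠ y → G.Adj x y := by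
  induction j with
  | zero =>
    obtain ⟨v⟩ : Nonempty V := Fintype.card_pos_iff.1 (by omega)
    refine ⟨{v}, by simp, ?_⟩
    intro x hx y hy hxy
    rw [Finset.mem_singleton] at hx hy
    exact absurd (hx.trans hy.symm) hxy
  | succ j ih =>
    obtain ⟨Q, hQ, hQ'⟩ := ih (lt_of_le_of_lt (Nat.mul_le_mul_right _ (by omega)) hj)
    have h1 : (Q.biUnion (fun v => Finset.univ.filter (fun w => ¬ G.Adj v w))).card <
        (Finset.univ : Finset V).card := by
      rw [Finset.card_univ]
      refine lt_of_le_of_lt (Finset.card_biUnion_le.trans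
        (Finset.sum_le_card_nsmul _ _ (2 * α) (fun v _ => hd v))) ?_
      rwa [hQ, smul_eq_mul]
    obtain ⟨w, -, hw⟩ := Finset.exists_mem_notMem_of_card_lt_card h1
    rw [Finset.mem_biUnion] at hw
    push Not at hw
    have h2 : ∀ v ∈ Q, G.Adj v w := by
      intro v hv
      by_contra h3
      exact hw v hv (Finset.mem_filter.2 ⟨Finset.mem_univ _, h3⟩)
    have h3 : w ∉ Q := fun h4 => (h2 w h4).ne rfl
    refine ⟨insert w Q, by rw [Finset.card_insert_of_notMem h3, hQ], ?_⟩
    intro x hx y hy hxy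
    rcases Finset.mem_insert.1 hx with e | hx'
    · rcases Finset.mem_insert.1 hy with e' | hy'
      · exact absurd (e.trans e'.symm) hxy
      · exact e ▸ (h2 _ hy').symm
    · rcases Finset.mem_insert.1 hy with e' | hy'
      · exact e' ▸ h2 _ hx'
      · exact hQ' _ hx' _ hy' hxy

/-- for large `k` the independence number is `1` -/
lemma alpha_one (hk : (bd 3) ^ 2 + 3 ≤ k) (hle : ∀ S : Finset V, Ind G S → S.card ≤ α)
    (hst : ∀ S : Finset V, S.card ≤ k → ∃ I, Ind G I ∧ I.card = α ∧ Disjoint I S)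
    (hn1 : 2 * α + k ≤ Fintype.card V + 1) (hn2 : Fintype.card V ≤ 2 * α + k) :
    α = 1 := by
  have hα0 : α ≠ 0 := by
    intro h0
    obtain ⟨v⟩ : Nonempty V := Fintype.card_pos_iff.1 (by omega)
    have h1 := hle {v} (by
      intro x hx y hy hxy
      rw [Finset.mem_singleton] at hx hy
      exact hxy.ne (hx.trans hy.symm))
    rw [Finset.card_singleton] at h1
    omega
  have hb := alpha_le (by omega) hle hst hn1 hn2
  obtain ⟨Q, hQ, hQ'⟩ := exists_clique (nonadj_le hle hst hn2) (2 * α - 1) (by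
    have h1 : (2 * α - 1) * (2 * α) ≤ bd 3 * bd 3 := Nat.mul_le_mul (by omega) hb
    have h2 : bd 3 * bd 3 = (bd 3) ^ 2 := (sq _).symm
    omega)
  obtain ⟨T, hTQ, hT⟩ := Finset.exists_subset_card_eq (s := Q) (n := Fintype.card V - k)
    (by omega)
  obtain ⟨I, h1, h2, h3⟩ := hst Tᶜ (by rw [Finset.card_compl, hT]; omega)
  have h4 : I.card ≤ 1 := by
    rw [Finset.card_le_one]
    intro x hx y hy
    by_contra hxy
    have hx' : x ∈ T := by
      by_contra h5
      exact Finset.disjoint_left.1 h3 hx (Finset.mem_compl.2 h5)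
    have hy' : y ∈ T := by
      by_contra h5
      exact Finset.disjoint_left.1 h3 hy (Finset.mem_compl.2 h5)
    exact h1 x hx y hy (hQ' x (hTQ hx') y (hTQ hy') hxy)
  omega

end

/-- from the definition to the combinatorial form -/
lemma of_tight {V : Type*} [Fintype V] {G : SimpleGraph V} {k : ℕ} (hG : Tight k G)
    (hkV : k ≤ Fintype.card V) :
    ∀ S : Finset V, S.card ≤ k → ∃ I, Ind G I ∧ I.card = G.indepNum ∧ Disjoint I S := by
  intro S hS
  obtain ⟨T, hST, hT⟩ : ∃ T : Finset V, S ⊆ T ∧ T.card = k := by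
    obtain ⟨T, h1, h2⟩ := Finset.exists_superset_card_eq hS hkV
    exact ⟨T, h1, h2⟩
  have h1 := hG.1 T hT
  obtain ⟨J, hJ⟩ := (G.induce {v | v ∉ T}).exists_isNIndepSet_indepNum
  obtain ⟨hJ1, hJ2⟩ := hJ
  have h2 : (J.map (Function.Embedding.subtype _)).card = J.card := Finset.card_map _
  obtain ⟨I, hIJ, hI⟩ := Finset.exists_subset_card_eq
    (s := J.map (Function.Embedding.subtype _)) (n := G.indepNum) (by rw [h2, hJ2]; omega)
  refine ⟨I, ?_, hI, ?_⟩
  · intro x hx y hy hxy
    obtain ⟨x', hx', rfl⟩ := Finset.mem_map.1 (hIJ hx)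
    obtain ⟨y', hy', rfl⟩ := Finset.mem_map.1 (hIJ hy)
    exact hJ1 hx' hy' (fun h4 => hxy.ne (congrArg Subtype.val h4)) hxy
  · rw [Finset.disjoint_left]
    intro x hx hxS
    obtain ⟨x', hx', rfl⟩ := Finset.mem_map.1 (hIJ hx)
    exact x'.2 (hST hxS)

/-- **Main theorem.** There is `k₀` such that for `k ≥ k₀` every tight `(k, 0)`-stable graph is
isomorphic to `K_{k+1}` or `K_{k+2}`. -/
theorem result : ∃ k₀ : ℕ, 0 < k₀ ∧ ∀ k : ℕ, k₀ ≤ k →
    ∀ (V : Type) [Fintype V] (G : SimpleGraph V), Tight k G →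
      Nonempty (G ≃g (⊤ : SimpleGraph (Fin (k + 1)))) ∨
      Nonempty (G ≃g (⊤ : SimpleGraph (Fin (k + 2)))) := by
  refine ⟨(bd 3) ^ 2 + 3, by omega, ?_⟩
  intro k hk V _ G hG
  have h0 := hG.2
  have h1 : 2 * (G.indepNum : ℤ) ≤ Fintype.card V - k + 1 := by
    have h2 := Int.floor_le ((((Fintype.card V : ℚ) - k + 1) / 2))
    rw [← h0] at h2
    have h3 : ((2 * (G.indepNum : ℤ) : ℤ) : ℚ) ≤ ((Fintype.card V - k + 1 : ℤ) : ℚ) := by
      push_cast at h2 ⊢
      linarith
    exact_mod_cast h3
  have h2 : (Fintype.card V : ℤ) - k + 1 < 2 * (G.indepNum : ℤ) + 2 := by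
    have h2 := Int.lt_floor_add_one ((((Fintype.card V : ℚ) - k + 1) / 2))
    rw [← h0] at h2
    have h3 : ((Fintype.card V - k + 1 : ℤ) : ℚ) < ((2 * (G.indepNum : ℤ) + 2 : ℤ) : ℚ) := by
      push_cast at h2 ⊢
      linarith
    exact_mod_cast h3
  have hle : ∀ S : Finset V, Ind G S → S.card ≤ G.indepNum :=
    fun S hS => (ind_iff.1 hS).card_le_indepNum
  have hn1 : 2 * G.indepNum + k ≤ Fintype.card V + 1 := by omega
  have hn2 : Fintype.card V ≤ 2 * G.indepNum + k := by omega
  have hα0 : G.indepNum ≠ 0 := by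
    intro h3
    obtain ⟨v⟩ : Nonempty V := Fintype.card_pos_iff.1 (by omega)
    have h4 := hle {v} (by
      intro x hx y hy hxy
      rw [Finset.mem_singleton] at hx hy
      exact hxy.ne (hx.trans hy.symm))
    rw [Finset.card_singleton] at h4
    omega
  have hst := of_tight hG (by omega)
  have hα := alpha_one hk hle hst hn1 hn2
  have hcomp : ∀ x y : V, x ≠ y → G.Adj x y := by
    intro x y hxy
    by_contra h3
    have h4 := hle {x, y} (by
      intro a ha b hb hab
      rw [Finset.mem_insert, Finset.mem_singleton] at ha hb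
      rcases ha with rfl | rfl <;> rcases hb with rfl | rfl
      · exact hab.ne rfl
      · exact h3 hab
      · exact h3 hab.symm
      · exact hab.ne rfl)
    rw [Finset.card_pair hxy] at h4
    omega
  have hiso : ∀ m : ℕ, Fintype.card V = m → Nonempty (G ≃g (⊤ : SimpleGraph (Fin m))) := by
    intro m hm
    let e : V ≃ Fin m := Fintype.equivFinOfCardEq hm
    refine ⟨⟨e, ?_⟩⟩
    intro a b
    constructor
    · intro h3
      exact hcomp a b (fun h4 => h3 (congrArg e h4))
    · intro h3 h4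
      exact h3.ne (e.injective h4)
  rcases (by omega : Fintype.card V = k + 1 ∨ Fintype.card V = k + 2) with h3 | h3
  · exact Or.inl (hiso _ h3)
  · exact Or.inr (hiso _ h3)

end Pool.Agent.Results.MP_476b05_co.LargeTight
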